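import Pool.Agent.Helper47.Law.Stat

/-!
# The law of the local frequencies in the Furstenberg systems of aperiodic multiplicative functions

Let `μ` be a Furstenberg system of an aperiodic multiplicative function with values `1` and `-1`. For a point `x` and a
window length `H` the large values of the local Fourier transform `F_H(x, α) = (1/H) ∑_{0 ≤ h < H} x(h) e(h α)` show the
frequencies with which `x` correlates in the window. (In a Bernoulli system, as in the question, there are none.) We show
that these frequencies are asymptotically uniformly distributed on the circle and independent of their strengths; and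
also conditionally on all the other strengths and on all averages over cubes in the window, for instance the local Gowers
norms of all orders.

Proof. The moments are averages of `x(z_1) ⋯ x(z_k) x(z_1') ⋯ x(z_k')` over the solutions of
`z_1 + ⋯ + z_k = z_1' + ⋯ + z_k' + Δ` in the window. The solutions with `k ≥ 2` are parametrised by cubes of which only
one vertex is displaced, by `Δ`; for `Δ ≠ 0` the starting theorem `DisplacedCubes` applies, also to products with
undisplaced cubes.
-/

set_option autoImplicit false

open MeasureTheory Filter Topology Finset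

namespace Pool.Agent.Results.MP_4a7640_nt.FrequencyLaw

open Pool.Agent.Results.MP_4a7640_nt.DisplacedCubes (Val X shift seq IsFurstenbergSystem IsMult Aperiodic)

/-- The local Fourier transform `F_H(x, α) = (1/H) ∑_{0 ≤ h < H} x(h) e(h α)`. -/
noncomputable def F (H : ℕ) (x : X) (α : UnitAddCircle) : ℂ :=
  (∑ h ∈ range H, ((x (h : ℤ) : ℝ) : ℂ) * fourier (h : ℤ) α) / H

/-- The strengths: `H ∫ |F_H(x, α)|^(2 k) dα`. -/
noncomputable def strength (k H : ℕ) (x : X) : ℝ := (H : ℝ) * ∫ α : UnitAddCircle, ‖F H x α‖ ^ (2 * k)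

/-- The average over cubes in the window: the mean over `0 ≤ b, h_1, ..., h_m < H` of the product of
`x(b + ∑_{i ∈ t} h_i)` over the vertices `t` in `A`. If `A` consists of all vertices, this is a local Gowers norm. -/
noncomputable def cubeAverage (m : ℕ) (A : Finset (Finset (Fin m))) (H : ℕ) (x : X) : ℝ :=
  (1 / (H : ℝ) ^ (m + 1)) * ∑ b : Fin H, ∑ h : Fin m → Fin H, ∏ t ∈ A, (x ((b : ℕ) + ∑ i ∈ t, ((h i : ℕ) : ℤ)) : ℝ)

/-- The statistics of a window: the strengths with `k ≥ 2` and the averages over cubes. -/
def IsStatistic (W : ℕ → X → ℝ) : Prop :=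
  (∃ k, 2 ≤ k ∧ W = strength k) ∨ ∃ (m : ℕ) (A : Finset (Finset (Fin m))), W = cubeAverage m A

lemma F_eq (H : ℕ) (x : X) (α : UnitAddCircle) : F H x α = Pool.Agent.Helper47.Law.F H x α := by
  unfold F Pool.Agent.Helper47.Law.F
  rw [Pool.Agent.Helper47.Law.S_range]

/-- **The law of the local frequencies.** Let `μ` be a Furstenberg system of an aperiodic multiplicative function with
values `1` and `-1`, `F_H(x, α)` the local Fourier transform. For all continuous `G` on the circle, `ψ` on the line, all
statistics `W_1, ..., W_r` of the window and all continuous `Ψ`, as `H → ∞`,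
`∫ Ψ(W_1, ..., W_r) · H ∫ (G(α) - ∫ G) |F_H(x, α)|^4 ψ(|F_H(x, α)|) dα dμ(x) → 0`. -/
theorem result (f : ℕ → Val) (hf : IsMult f) (ha : Aperiodic f) (μ : Measure X) (hμ : IsFurstenbergSystem f μ)
    (G : C(UnitAddCircle, ℝ)) (ψ : C(ℝ, ℝ)) (r : ℕ) (W : Fin r → ℕ → X → ℝ) (hW : ∀ j, IsStatistic (W j))
    (Ψ : C(Fin r → ℝ, ℝ)) :
    Tendsto (fun H : ℕ => ∫ x, Ψ (fun j => W j H x) *
      ((H : ℝ) * ∫ α : UnitAddCircle, (G α - ∫ β : UnitAddCircle, G β) * (‖F H x α‖ ^ 4 * ψ ‖F H x α‖)) ∂μ)
      atTop (𝓝 0) := by
  have h1 : ∀ j, W j ∈ Pool.Agent.Helper47.Law.UT1 := by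
    intro j
    rcases hW j with ⟨k, hk, h⟩ | ⟨m, A, h⟩
    · rw [h]
      have h2 := Pool.Agent.Helper47.Law.strength_mem k hk
      have h3 : strength k = fun (H : ℕ) (x : X) =>
          (H : ℝ) * ∫ α : UnitAddCircle, ‖Pool.Agent.Helper47.Law.F H x α‖ ^ (2 * k) := by
        funext H x
        unfold strength
        simp only [F_eq]
      rw [h3]
      exact h2
    · rw [h]
      exact Pool.Agent.Helper47.Law.cav_mem m A
  have h2 := Pool.Agent.Helper47.Law.law hf ha hμ W h1 Ψ G ψ
  simp only [F_eq]
  exact h2

end Pool.Agent.Results.MP_4a7640_nt.FrequencyLaw
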