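import Mathlib
import Pool.Agent.K9h39.CD.E3

/-!
# The multiplicative functions with a large correlation have dimension less than one

`SignMul f`: `f 1 = 1`, `f (m n) = f m f n` for coprime `m, n`, and `f n ∈ {1, -1}` for `n ≥ 1`
(`Pool.Agent.W257.FS.D`).  `bern`: the law of independent fair signs on `ℤ → ℝ`
(`Pool.Agent.W257.FS.F`); `IsFurst f μ`: the probability measure `μ` is a Furstenberg system of `f`
(`Pool.Agent.W257.FS.G`).
-/

set_option autoImplicit false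

namespace Pool.Agent.Results.MP_4a7640_nt.CorrelationDimension

open Finset Filter Topology MeasureTheory
open scoped ENNReal
open Pool.Agent.W257.FS (SignMul IsFurst bern)

open Classical in
/-- The code of `f`: the number of `[0, 1]` whose `j`-th binary digit is `1` if `f` is `-1` at the
`j`-th prime power `2, 3, 4, 5, 7, 8, 9, …`, and `0` otherwise. -/
noncomputable def code (f : ℕ → ℝ) : ℝ :=
  ∑' j : ℕ, if f (Nat.nth IsPrimePow j) = -1 then (1 / 2 : ℝ) ^ (j + 1) else 0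

/-- The multiplicative functions with values `1` and `-1` with a correlation of order at most `k`
and size at least `ε`: there is a set `H` of `1` to `k` shifts such that the averages
`(1 / N) ∑_{n ≤ N} ∏_{h ∈ H} f (n + h)` have absolute value at least `ε` for infinitely many `N`,
or a Furstenberg system `μ` of `f` with `|∫ ∏_{h ∈ H} x_h dμ| ≥ ε`. -/
def Large (k : ℕ) (ε : ℝ) : Set (ℕ → ℝ) :=
  {f | SignMul f ∧ ∃ H : Finset ℕ, H.Nonempty ∧ H.card ≤ k ∧
    ((∃ᶠ N : ℕ in atTop, ε ≤ |(∑ n ∈ Icc 1 N, ∏ h ∈ H, f (n + h)) / N|) ∨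
      ∃ μ : Measure (ℤ → ℝ), IsFurst f μ ∧ ε ≤ |∫ x, ∏ h ∈ H, x (h : ℤ) ∂μ|)}

lemma code_eq : code = Pool.Agent.K9h39.CD.code := by
  funext f
  unfold code Pool.Agent.K9h39.CD.code
  refine tsum_congr fun j => ?_
  congr

lemma large_sub {k : ℕ} {ε : ℝ} (hε : 0 < ε) : Large k ε ⊆
    ⋃ H : {H : Finset ℕ // H.Nonempty ∧ H.card ≤ k}, Pool.Agent.K9h39.CD.EH H.1 (ε / 4) := by
  rintro f ⟨hf, H, hH, hk, h⟩
  rw [Set.mem_iUnion]
  refine ⟨⟨H, hH, hk⟩, hf, ?_⟩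
  rcases h with h | ⟨μ, hμ, h⟩
  · exact h.mono fun N hN => by linarith
  · exact Pool.Agent.K9h39.CD.furst_freq hf hμ hε h

lemma const_le {k : ℕ} (hk : 1 ≤ k) {ε : ℝ} (hε : 0 < ε) (hε1 : ε ≤ 1) :
    1 / 132710400 * ε ^ 2 / (k ^ 2 * (1 + Real.log (1 / ε)) ^ 2) ≤
      1 / 921600 * (ε / 4) ^ 2 / (k ^ 2 * (1 + Real.log (1 / (ε / 4))) ^ 2) := by
  have hk' : (1 : ℝ) ≤ k := by exact_mod_cast hk
  have hl0 : 0 ≤ Real.log (1 / ε) := Real.log_nonneg (by rw [le_div_iff₀ hε]; linarith)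
  have e1 : 1 / (ε / 4) = 2 ^ 2 * (1 / ε) := by field_simp; norm_num
  have e2 : Real.log (1 / (ε / 4)) = 2 * Real.log 2 + Real.log (1 / ε) := by
    rw [e1, Real.log_mul (by norm_num) (by positivity), Real.log_pow]
    norm_num
  rw [e2]
  have hl2 := Real.log_two_lt_d9
  have hl2' : 0 < Real.log 2 := Real.log_pos (by norm_num)
  set l := Real.log (1 / ε) with hl
  have h1 : 1 + (2 * Real.log 2 + l) ≤ 3 * (1 + l) := by linarith
  have h2 : (1 + (2 * Real.log 2 + l)) ^ 2 ≤ (3 * (1 + l)) ^ 2 :=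
    pow_le_pow_left₀ (by positivity) h1 2
  rw [div_le_div_iff₀ (by positivity) (by positivity)]
  have h3 := mul_le_mul_of_nonneg_left h2 (by positivity : 0 ≤ ε ^ 2 * (k : ℝ) ^ 2)
  nlinarith

/-- The conclusion of Q1 in its strongest form: the averages `(1 / N) ∑_{n ≤ N} ∏_{h ∈ H} f (n + h)` tend to `0` for
every nonempty finite `H`, and `bern` is the one and only Furstenberg system of `f`. -/
def Random (f : ℕ → ℝ) : Prop :=
  (∀ H : Finset ℕ, H.Nonempty →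
    Tendsto (fun N : ℕ => (∑ n ∈ Icc 1 N, ∏ h ∈ H, f (n + h)) / N) atTop (𝓝 0)) ∧
  ∀ μ : Measure (ℤ → ℝ), IsFurst f μ ↔ μ = bern

lemma random_of {f : ℕ → ℝ} (hf : SignMul f) (hout : ∀ (k : ℕ) (ε : ℝ), 0 < ε → f ∉ Large k ε) :
    Random f := by
  refine ⟨fun H hH => ?_, fun μ => ?_⟩
  · rw [Metric.tendsto_nhds]
    intro ε hε
    by_contra hcon
    refine hout H.card ε hε ⟨hf, H, hH, le_rfl, Or.inl ?_⟩
    refine (Filter.not_eventually.1 hcon).mono fun N hN => ?_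
    rw [Real.dist_eq, sub_zero, not_lt] at hN
    exact hN
  · rw [← Pool.Agent.K9h39.CD.furst_fix0 f μ]
    refine Pool.Agent.TH668.Gen.furst_of_corr (Pool.Agent.K9h39.CD.fix0_mul hf)
      (Pool.Agent.K9h39.CD.fix0_or hf) (fun H hH => ?_) μ
    rw [Metric.tendsto_nhds]
    intro ε hε
    by_contra hcon
    have h1 := Pool.Agent.K9h39.CD.freq_log (a := fun n => ∏ h ∈ H, f (n + h)) (η := ε / 2)
      (fun n hn => by
        rw [Finset.abs_prod]
        refine le_of_eq (Finset.prod_eq_one fun h _ => ?_)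
        rcases hf.val (n + h) (by omega) with h1 | h1 <;> rw [h1] <;> simp)
      (by linarith) ((Filter.not_eventually.1 hcon).mono fun N hN => by
        rw [Real.dist_eq, sub_zero, not_lt, Pool.Agent.K9h39.CD.corr_fix0] at hN
        have e : 2 * (ε / 2) = ε := by ring
        rw [e]
        exact hN)
    exact hout H.card (ε / 2) (by linarith) ⟨hf, H, hH, le_rfl, Or.inl h1⟩

lemma large_mono {k l : ℕ} {ε δ : ℝ} (hkl : k ≤ l) (h : δ ≤ ε) : Large k ε ⊆ Large l δ := by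
  rintro f ⟨hf, H, hH, hk, h1⟩
  refine ⟨hf, H, hH, hk.trans hkl, ?_⟩
  rcases h1 with h1 | ⟨μ, hμ, h1⟩
  · exact Or.inl (h1.mono fun N hN => h.trans hN)
  · exact Or.inr ⟨μ, hμ, h.trans h1⟩

lemma dim_large {k : ℕ} {ε : ℝ} (hk : 1 ≤ k) (hε : 0 < ε) (hε1 : ε ≤ 1) :
    dimH (code '' Large k ε) ≤ ENNReal.ofReal
      (1 - 1 / 132710400 * ε ^ 2 / (k ^ 2 * (1 + Real.log (1 / ε)) ^ 2)) := by
  rw [code_eq]
  have h1 := Set.image_mono (f := Pool.Agent.K9h39.CD.code) (large_sub (k := k) hε)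
  rw [Set.image_iUnion] at h1
  refine (dimH_mono h1).trans ?_
  rw [dimH_iUnion]
  refine iSup_le fun H => ?_
  refine (Pool.Agent.K9h39.CD.dim_EH H.2.1 H.2.2 (by linarith : 0 < ε / 4) (by linarith)).trans ?_
  apply ENNReal.ofReal_le_ofReal
  have := const_le hk hε hε1
  linarith

lemma null_large {k : ℕ} {ε : ℝ} (hk : 1 ≤ k) (hε : 0 < ε) (hε1 : ε ≤ 1) {φ : ℝ≥0∞ → ℝ≥0∞}
    (hφ : ∀ s : ℝ, 0 < s → s < 1 → ∀ᶠ r in 𝓝 (0 : ℝ≥0∞), φ r ≤ r ^ s) :
    Measure.mkMetric φ (code '' Large k ε) = 0 := by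
  set δ : ℝ := 1 / 132710400 * ε ^ 2 / (k ^ 2 * (1 + Real.log (1 / ε)) ^ 2) with hδ
  have hk' : (1 : ℝ) ≤ k := by exact_mod_cast hk
  have hl0 : 0 ≤ Real.log (1 / ε) := Real.log_nonneg (by rw [le_div_iff₀ hε]; linarith)
  have hδ0 : 0 < δ := by rw [hδ]; positivity
  have hδ1 : δ < 1 := by
    rw [hδ, div_lt_one (by positivity)]
    have h1 : ε ^ 2 ≤ 1 := pow_le_one₀ hε.le hε1
    have h2 : 1 ≤ (k : ℝ) ^ 2 * (1 + Real.log (1 / ε)) ^ 2 :=
      one_le_mul_of_one_le_of_one_le (one_le_pow₀ hk') (one_le_pow₀ (by linarith))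
    linarith
  set s : ℝ := 1 - δ / 2 with hs
  have hs0 : 0 < s := by rw [hs]; linarith
  have hs1 : s < 1 := by rw [hs]; linarith
  have hdim : dimH (code '' Large k ε) < (s.toNNReal : ℝ≥0∞) := by
    refine (dim_large hk hε hε1).trans_lt ?_
    change ENNReal.ofReal _ < ENNReal.ofReal _
    rw [ENNReal.ofReal_lt_ofReal_iff hs0, hs]
    linarith
  have h0 := hausdorffMeasure_of_dimH_lt hdim
  rw [Real.coe_toNNReal s hs0.le] at h0
  have h1 : (Measure.mkMetric φ : Measure ℝ) ≤ Measure.hausdorffMeasure s :=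
    Measure.mkMetric_mono (hφ s hs0 hs1)
  exact le_antisymm ((h1 _).trans h0.le) zero_le

theorem result :
    code '' {f | SignMul f} = Set.Icc 0 1 ∧
    (∃ c : ℝ, 0 < c ∧ ∀ (k : ℕ) (ε : ℝ), 1 ≤ k → 0 < ε → ε ≤ 1 →
      dimH (code '' Large k ε) ≤
        ENNReal.ofReal (1 - c * ε ^ 2 / (k ^ 2 * (1 + Real.log (1 / ε)) ^ 2))) ∧
    (∀ f : ℕ → ℝ, SignMul f → (∀ (k : ℕ) (ε : ℝ), 0 < ε → f ∉ Large k ε) → Random f) ∧
    ∀ φ : ℝ≥0∞ → ℝ≥0∞, (∀ s : ℝ, 0 < s → s < 1 → ∀ᶠ r in 𝓝 (0 : ℝ≥0∞), φ r ≤ r ^ s) →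
      Measure.mkMetric φ (code '' {f | SignMul f ∧ ¬ Random f}) = 0 := by
  refine ⟨?_, ⟨1 / 132710400, by norm_num, fun k ε hk hε hε1 => dim_large hk hε hε1⟩,
    fun f hf hout => random_of hf hout, fun φ hφ => ?_⟩
  · rw [code_eq]; exact Pool.Agent.K9h39.CD.code_range
  · have hsub : {f | SignMul f ∧ ¬ Random f} ⊆ ⋃ z : ℕ × ℕ, Large (z.1 + 1) (1 / ((z.2 : ℝ) + 1)) := by
      rintro f ⟨hf, hr⟩
      by_contra hcon
      apply hr
      refine random_of hf fun k ε hε hfk => hcon ?_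
      obtain ⟨n, hn⟩ := exists_nat_one_div_lt hε
      rw [Set.mem_iUnion]
      exact ⟨(k, n), large_mono (Nat.le_succ k) hn.le hfk⟩
    have h1 := Set.image_mono (f := code) hsub
    rw [Set.image_iUnion] at h1
    refine measure_mono_null h1 (measure_iUnion_null fun z => ?_)
    refine null_large (by omega) (by positivity) ?_ hφ
    rw [div_le_one (by positivity)]
    have : (0 : ℝ) ≤ z.2 := Nat.cast_nonneg _
    linarith

end Pool.Agent.Results.MP_4a7640_nt.CorrelationDimension
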