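import Pool.Agent.K9h47.JL.Fin
import Pool.Agent.K9h47.JL.Rn
import Pool.Agent.K9h47.JL.Ker
import Pool.Agent.K9h47.JL.Cmp
import Pool.Agent.K9h47.JL.Mean
import Pool.Agent.K9h47.JL.Limg
import Pool.Agent.K9h47.JL.Ctwo
import Pool.Agent.K9h47.JL.Pol
import Pool.Agent.K9h47.JL.Wt
import Pool.Agent.K9h47.JL.Dilc2
import Pool.Agent.K9h47.JL.Wone
import Pool.Agent.K9h47.JL.Wtwo
import Pool.Agent.K9h47.JL.Wthr
import Pool.Agent.K9h47.JL.Win
import Pool.Agent.K9h47.JL.Vin
import Pool.Agent.K9h47.JL.Apq
import Pool.Agent.K9h47.JL.Tao
import Pool.Agent.K9h47.JL.Pdw
import Pool.Agent.K9h47.JL.Levy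
import Pool.Agent.K9h47.JL.Tor
import Pool.Agent.K9h47.JL.Ntv
import Pool.Agent.K9h47.JL.Alg
import Pool.Agent.K9h47.JL.Haar
import Pool.Agent.K9h47.JL.Dec
import Pool.Agent.K9h47.JL.Den
import Pool.Agent.K9h47.JL.Row
import Pool.Agent.K9h47.JL.Ape

/-!
# The joint law of the local frequencies in Furstenberg systems of multiplicative functions

Let `μ` be a Furstenberg system of a multiplicative function with values `1` and `-1`. For a point `x` and a window length
`H` the large values of the local Fourier transform `F_H(x, α) = (1/H) ∑_{0 ≤ h < H} x(h) e(h α)` show the frequencies with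
which `x` correlates in the window (as `H → ∞`: the eigenvalues of the ergodic component of `x`). Draw `s` frequencies
`α_1, ..., α_s` at the same point `x`, with the densities `H |F_H(x, α_l)|^4`. We show that their joint law on the torus
converges, and that the limit is a countable combination of the uniform distributions of rational affine subtori: images
of Haar measure under `β ↦ τ + M β` with a rational point `τ` and an integer matrix `M`. So the frequencies satisfy some
linear relations with integer coefficients modulo rational numbers, and are uniformly distributed subject to these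
relations. In a Bernoulli system, as in the question, the joint law tends to zero.

Proof. The spectral measures of the ergodic components: mean values of the products of conditional correlations
`r_n r_(n+j)` over `n` exist and the same values are obtained if `n` runs over multiples of `p` (a Cauchy-Schwarz
argument for the positive definite kernel `r_(s-t)`). Tao's entropy decrement argument: correlations do not change on
average over `p` if all places are multiplied by `p`. So the Fourier coefficients `c(k)` of the limit of the joint laws
satisfy `c(p k) ≈ c(k)` on average over the primes `p` of infinitely many dyadic intervals. By Vinogradov's theorem and the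
prime number theorem for arithmetic progressions, `c(k)` is the integral of `e(k·α)` over the points for which `k·α` is
rational, and this describes the limit.
-/

set_option autoImplicit false

open MeasureTheory Filter Topology Finset

namespace Pool.Agent.Results.MP_4a7640_nt.JointFrequencyLaw

open Pool.Agent.Results.MP_4a7640_nt.DisplacedCubes (Val X shift seq IsFurstenbergSystem IsMult Aperiodic)

/-- The local Fourier transform `F_H(x, α) = (1/H) ∑_{0 ≤ h < H} x(h) e(h α)`. -/
noncomputable def F (H : ℕ) (x : X) (α : UnitAddCircle) : ℂ :=
  (∑ h ∈ range H, ((x (h : ℤ) : ℝ) : ℂ) * fourier (h : ℤ) α) / H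

/-- The mean of `G(α_1, ..., α_s)` if the `s` frequencies are drawn at the same point `x` with the densities
`H |F_H(x, α_l)|^4`, and `x` with the law `μ`. -/
noncomputable def jointMean (μ : Measure X) (s H : ℕ) (G : (Fin s → UnitAddCircle) → ℝ) : ℝ :=
  ∫ x, (∫ α : Fin s → UnitAddCircle, G α * ∏ l, ((H : ℝ) * ‖F H x (α l)‖ ^ 4)) ∂μ

/-- The mean of `G` over the rational affine subtorus `τ + M 𝕋^s`. -/
noncomputable def torusMean {s : ℕ} (M : Matrix (Fin s) (Fin s) ℤ) (τ : Fin s → ℚ)
    (G : (Fin s → UnitAddCircle) → ℝ) : ℝ :=
  ∫ β : Fin s → UnitAddCircle, G (fun l => ((τ l : ℝ) : UnitAddCircle) + ∑ j, M l j • β j)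

/-- **The joint law of the local frequencies.** Let `μ` be a Furstenberg system of a multiplicative function with
values `1` and `-1`. For every `s` the joint law of `s` local frequencies drawn at the same point converges (weakly, on the
torus) to a countable combination of the uniform distributions of rational affine subtori; in the aperiodic case each of
these subtori projects onto every coordinate. -/
theorem result (f : ℕ → Val) (hf : IsMult f) (μ : Measure X) (hμ : IsFurstenbergSystem f μ) (s : ℕ) :
    ∃ w : Matrix (Fin s) (Fin s) ℤ × (Fin s → ℚ) → ℝ, (∀ i, 0 ≤ w i) ∧ Summable w ∧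
      (Aperiodic f → ∀ i, w i ≠ 0 → ∀ l, ∃ j, i.1 l j ≠ 0) ∧
      ∀ G : C(Fin s → UnitAddCircle, ℝ),
        Tendsto (fun H : ℕ => jointMean μ s H G) atTop (𝓝 (∑' i, w i * torusMean i.1 i.2 G)) := by
  open Pool.Agent.K9h47.JL in
  exact fin rn (limg ker (cmp ker) mean) (dilc ctwo pol wt) wone (win (wtwo ctwo) wthr) vin apq wt tao pdw levy tor
    ntv alg haar dec den row ape f hf μ hμ s

end Pool.Agent.Results.MP_4a7640_nt.JointFrequencyLaw
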