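import Pool.Agent.K9h46.ZO.Fur

/-!
# The leading coefficients of the local polynomial correlations in Furstenberg systems

Let `μ` be a Furstenberg system of an aperiodic multiplicative function with values `1` and `-1`. In a Bernoulli system,
as in the question, the largest correlation of a point `x` in the window `[1, H]` with a polynomial phase of degree at
most `d` tends to zero. We compare all moments of this largest correlation with those for the phases whose leading
coefficient is in an arbitrary set `E` of the circle: up to the phases of lower degree (no such term for `d = 1`), the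
`r`-th moment for ALL phases is at most that for `E` divided by the measure of the closure of `E`. In particular
(`r → ∞`) for `d = 1` every set of frequencies of positive measure gives the same essential supremum as the circle.

Proof. Correlations of the function with a phase on a long window go down to the window divided by `p`, for most primes
`p`, with the leading coefficient multiplied by `p ^ d` (Turán-Kubilius); unless the leading coefficient is near a
fraction with a small denominator, for nearly the fraction `|cl E|` of the primes `p` the multiple is near `E`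
(exponential sums over primes). Fractions are removed on residue classes.
-/

set_option autoImplicit false

open Finset MeasureTheory

namespace Pool.Agent.Results.MP_4a7640_nt.PolynomialPhaseMoments

open Pool.Agent.Results.MP_4a7640_nt.DisplacedCubes (Val X shift seq IsFurstenbergSystem IsMult Aperiodic)

/-- `e(t) = exp(2 π i t)` -/
noncomputable def e (t : ℝ) : ℂ := Complex.exp (2 * Real.pi * Complex.I * t)

/-- The supremum of `|(1/H) ∑_{1 ≤ h ≤ H} x(h) e(P(h))|` over all real polynomials `P` of degree at most `d` whose
coefficient of `t ^ d` is in `E` modulo one; all other coefficients are arbitrary. -/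
noncomputable def phaseSup (d : ℕ) (E : Set UnitAddCircle) (H : ℕ) (x : X) : ℝ :=
  (⨆ P : {P : Polynomial ℝ // P.natDegree ≤ d ∧ ((P.coeff d : ℝ) : UnitAddCircle) ∈ E},
    ‖∑ h ∈ Icc 1 H, ((x (h : ℤ) : ℝ) : ℂ) * e (P.1.eval (h : ℝ))‖) / H

lemma phaseSup_eq (d : ℕ) (E : Set UnitAddCircle) (H : ℕ) (x : X) :
    phaseSup d E H x = Pool.Agent.K9h46.ZO.Fur.pS d E H x := by
  unfold phaseSup Pool.Agent.K9h46.ZO.Fur.pS Pool.Agent.Helper44K9.FU.wSup Pool.Agent.Helper44K9.FU.W
  have h1 : Ioc 0 (0 + H) = Icc 1 H := by
    ext m
    simp only [mem_Ioc, mem_Icc]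
    omega
  rw [h1]
  rfl

/-- Let `f` be an aperiodic multiplicative function with values `1` and `-1`, `μ` a Furstenberg system of `f`, `d ≥ 1`
and `r ≥ 1`. For every set `E` of leading coefficients, every window length `K` and every `ε > 0` there is a constant
`C`, with `C = 0` if `d = 1`, such that for every window length `L` and all large `H`: the measure of the closure of `E`
times the `r`-th moment of `phaseSup d (ℝ/ℤ) H` (ALL polynomials of degree at most `d`, long windows) is at most
`∫ (phaseSup d E K)^r dμ + C ∫ phaseSup (d - 1) (ℝ/ℤ) L dμ + ε`. -/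
theorem result (f : ℕ → Val) (hf : IsMult f) (ha : Aperiodic f) (μ : Measure X) (hμ : IsFurstenbergSystem f μ)
    (d r : ℕ) (hd : 1 ≤ d) (hr : 1 ≤ r) (E : Set UnitAddCircle) (K : ℕ) (hK : 1 ≤ K) (ε : ℝ) (hε : 0 < ε) :
    ∃ C : ℕ, (d = 1 → C = 0) ∧ ∀ L : ℕ, 1 ≤ L → ∃ H₀ : ℕ, ∀ H : ℕ, H₀ ≤ H →
      (volume (closure E)).toReal * ∫ x, phaseSup d Set.univ H x ^ r ∂μ ≤
        ∫ x, phaseSup d E K x ^ r ∂μ + C * ∫ x, phaseSup (d - 1) Set.univ L x ∂μ + ε := by
  simp only [phaseSup_eq]
  exact Pool.Agent.K9h46.ZO.Fur.fur hf ha hμ hd hr E hK hε

end Pool.Agent.Results.MP_4a7640_nt.PolynomialPhaseMoments
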